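import Mathlib

/-!
# A residue class avoiding given primes
-/

namespace H76EF

/-- the quantity `u ^ 2 + c` -/
theorem int_cong (l c y z : ℤ) (h : l ∣ y - z) :
    l ∣ ((869 - 2 * (5223 * y) - 2 * (5223 * y) ^ 2) ^ 2 + c)
      - ((869 - 2 * (5223 * z) - 2 * (5223 * z) ^ 2) ^ 2 + c) := by
  have e : ((869 - 2 * (5223 * y) - 2 * (5223 * y) ^ 2) ^ 2 + c)
      - ((869 - 2 * (5223 * z) - 2 * (5223 * z) ^ 2) ^ 2 + c)
      = (-10446 - 54559458 * (y + z)) * ((869 - 2 * (5223 * y) - 2 * (5223 * y) ^ 2)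
        + (869 - 2 * (5223 * z) - 2 * (5223 * z) ^ 2)) * (y - z) := by ring
  rw [e]
  exact Dvd.dvd.mul_left h _

theorem exists_away (M : ℕ) (hM : 0 < M) :
    ∃ t : ℤ, IsCoprime ((869 - 2 * (5223 * t) - 2 * (5223 * t) ^ 2) ^ 2 + 12) (M : ℤ) ∧
      IsCoprime ((869 - 2 * (5223 * t) - 2 * (5223 * t) ^ 2) ^ 2 + 1740) (M : ℤ) := by
  obtain ⟨g, hg⟩ : ∃ g : ℕ, g = ∏ l ∈ M.primeFactors.filter (fun l => ¬ l ∣ 571591198873), l :=
    ⟨_, rfl⟩
  have hcop : IsCoprime (g : ℤ) ((571591198873 : ℕ) : ℤ) := by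
    rw [Nat.isCoprime_iff_coprime, hg]
    apply Nat.Coprime.prod_left
    intro l hl
    rw [Finset.mem_filter] at hl
    exact (Nat.Prime.coprime_iff_not_dvd (Nat.prime_of_mem_primeFactors hl.1)).2 hl.2
  obtain ⟨a, b, hab⟩ := hcop
  -- it is enough to treat primes
  have key : ∀ l : ℕ, l.Prime → l ∣ M →
      ¬ (l : ℤ) ∣ (869 - 2 * (5223 * (a * g)) - 2 * (5223 * (a * g)) ^ 2) ^ 2 + 12 ∧
      ¬ (l : ℤ) ∣ (869 - 2 * (5223 * (a * g)) - 2 * (5223 * (a * g)) ^ 2) ^ 2 + 1740 := by
    intro l hl hlM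
    by_cases hN : l ∣ 571591198873
    · have h1 : (l : ℤ) ∣ a * g - 1 := by
        obtain ⟨k, hk⟩ := hN
        refine ⟨-(b * k), ?_⟩
        have hk' : ((571591198873 : ℕ) : ℤ) = l * k := by rw [hk]; push_cast; ring
        linear_combination hab - b * hk'
      have hcd : ∀ m : ℕ, Nat.Coprime m 571591198873 → ¬ (l : ℤ) ∣ (m : ℤ) := by
        intro m hm hd
        have h2 : l ∣ m := by exact_mod_cast hd
        have h3 : l ∣ Nat.gcd m 571591198873 := Nat.dvd_gcd h2 hN
        rw [hm.gcd_eq_one] at h3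
        exact hl.one_lt.ne' (Nat.dvd_one.1 h3)
      constructor
      · intro h
        have h2 := (dvd_sub_right h).1 (int_cong l 12 _ _ h1)
        exact hcd 2977779580831237 (by norm_num) (by
          have e : ((2977779580831237 : ℕ) : ℤ)
              = (869 - 2 * (5223 * 1) - 2 * (5223 * 1) ^ 2) ^ 2 + 12 := by norm_num
          rw [e]; exact h2)
      · intro h
        have h2 := (dvd_sub_right h).1 (int_cong l 1740 _ _ h1)
        exact hcd 2977779580832965 (by norm_num) (by
          have e : ((2977779580832965 : ℕ) : ℤ)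
              = (869 - 2 * (5223 * 1) - 2 * (5223 * 1) ^ 2) ^ 2 + 1740 := by norm_num
          rw [e]; exact h2)
    · have hlg : l ∣ g := by
        rw [hg]
        apply Finset.dvd_prod_of_mem (fun l => l)
        rw [Finset.mem_filter]
        exact ⟨Nat.mem_primeFactors.2 ⟨hl, hlM, hM.ne'⟩, hN⟩
      have h1 : (l : ℤ) ∣ a * g - 0 := by
        rw [sub_zero]
        exact Dvd.dvd.mul_left (by exact_mod_cast hlg) _
      constructor
      · intro h
        have h2 := (dvd_sub_right h).1 (int_cong l 12 _ _ h1)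
        apply hN
        have h3 : (l : ℤ) ∣ 755173 := by
          have e : (755173 : ℤ) = (869 - 2 * (5223 * 0) - 2 * (5223 * 0) ^ 2) ^ 2 + 12 := by
            norm_num
          rw [e]; exact h2
        have h4 : l ∣ 755173 := by exact_mod_cast h3
        exact h4.trans (by norm_num)
      · intro h
        have h2 := (dvd_sub_right h).1 (int_cong l 1740 _ _ h1)
        apply hN
        have h3 : (l : ℤ) ∣ 756901 := by
          have e : (756901 : ℤ) = (869 - 2 * (5223 * 0) - 2 * (5223 * 0) ^ 2) ^ 2 + 1740 := by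
            norm_num
          rw [e]; exact h2
        have h4 : l ∣ 756901 := by exact_mod_cast h3
        exact h4.trans (by norm_num)
  refine ⟨a * g, ?_, ?_⟩
  · rw [Int.isCoprime_iff_gcd_eq_one]
    by_contra hne
    obtain ⟨l, hl, hld⟩ := Nat.exists_prime_and_dvd hne
    have h1 := Int.natCast_dvd.2 (hld.trans (Int.gcd_dvd_natAbs_left _ _))
    have h2 : l ∣ M := by
      have := hld.trans (Int.gcd_dvd_natAbs_right _ _)
      simpa using this
    exact (key l hl h2).1 h1
  · rw [Int.isCoprime_iff_gcd_eq_one]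
    by_contra hne
    obtain ⟨l, hl, hld⟩ := Nat.exists_prime_and_dvd hne
    have h1 := Int.natCast_dvd.2 (hld.trans (Int.gcd_dvd_natAbs_left _ _))
    have h2 : l ∣ M := by
      have := hld.trans (Int.gcd_dvd_natAbs_right _ _)
      simpa using this
    exact (key l hl h2).2 h1

end H76EF
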