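import Mathlib

/-!
# The integral parameter modulo the square of a prime
-/

namespace H76EF

/-- lifting a root of the quartic to a parameter that is a simple zero modulo `p ^ 2` -/
theorem exists_int {p : ℕ} (hp : p.Prime) (hbig : 3031081 < p) (c n : ℤ) (hc0 : 0 < c)
    (hc : c ≤ 1740) (hn : (p : ℤ) ∣ n ^ 4 - 3478 * n ^ 2 + (3024121 + 4 * c)) :
    ∃ y : ℤ, (p : ℤ) ∣ (869 - 2 * (5223 * y) - 2 * (5223 * y) ^ 2) ^ 2 + c ∧
      ¬ (p : ℤ) ^ 2 ∣ (869 - 2 * (5223 * y) - 2 * (5223 * y) ^ 2) ^ 2 + c := by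
  have hpr : Prime (p : ℤ) := Nat.prime_iff_prime_int.1 hp
  have hsmall : ∀ m : ℤ, 0 < m → m ≤ 3031081 → ¬ (p : ℤ) ∣ m := by
    intro m h1 h2 h3
    have h4 := Int.le_of_dvd h1 h3
    have h5 : (3031081 : ℤ) < p := by exact_mod_cast hbig
    omega
  -- y₁
  have hcop : IsCoprime (10446 : ℤ) (p : ℤ) := by
    rw [isCoprime_comm]
    exact (hpr.coprime_iff_not_dvd).2 (hsmall _ (by norm_num) (by norm_num))
  obtain ⟨a, b, hab⟩ := hcop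
  obtain ⟨y, hy⟩ : ∃ y : ℤ, y = a * (n - 1) := ⟨_, rfl⟩
  have hyn : (p : ℤ) ∣ (1 + 10446 * y) - n := ⟨-(b * (n - 1)), by
    rw [hy]; linear_combination (n - 1) * hab⟩
  obtain ⟨s, hs⟩ : ∃ s : ℤ, s = 1 + 10446 * y := ⟨_, rfl⟩
  obtain ⟨u, hu⟩ : ∃ u : ℤ, u = 869 - 2 * (5223 * y) - 2 * (5223 * y) ^ 2 := ⟨_, rfl⟩
  have h4 : 4 * (u ^ 2 + c) = s ^ 4 - 3478 * s ^ 2 + (3024121 + 4 * c) := by
    rw [hu, hs]; ring
  rw [← hs] at hyn
  have hgs : (p : ℤ) ∣ s ^ 4 - 3478 * s ^ 2 + (3024121 + 4 * c) := by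
    have e : s ^ 4 - 3478 * s ^ 2 + (3024121 + 4 * c)
        = (n ^ 4 - 3478 * n ^ 2 + (3024121 + 4 * c))
          + (s - n) * ((s + n) * (s ^ 2 + n ^ 2) - 3478 * (s + n)) := by ring
    rw [e]
    exact dvd_add hn (Dvd.dvd.mul_right hyn _)
  have hd : (p : ℤ) ∣ u ^ 2 + c := by
    rw [← h4] at hgs
    rcases hpr.dvd_or_dvd hgs with h | h
    · exact absurd h (hsmall _ (by norm_num) (by norm_num))
    · exact h
  have hup : ¬ (p : ℤ) ∣ u := by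
    intro h
    have h5 : (p : ℤ) ∣ c := (dvd_add_right (Dvd.dvd.pow h (by norm_num))).1 hd
    exact hsmall c hc0 (by omega) h5
  have hsp : ¬ (p : ℤ) ∣ s := by
    intro h
    have h5 : (p : ℤ) ∣ s ^ 4 - 3478 * s ^ 2 :=
      dvd_sub (Dvd.dvd.pow h (by norm_num)) (Dvd.dvd.mul_left (Dvd.dvd.pow h (by norm_num)) _)
    have h6 : (p : ℤ) ∣ 3024121 + 4 * c := (dvd_add_right h5).1 hgs
    exact hsmall _ (by omega) (by omega) h6
  by_cases h1 : (p : ℤ) ^ 2 ∣ u ^ 2 + c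
  · refine ⟨y + p, ?_, ?_⟩
    · have e : (869 - 2 * (5223 * (y + p)) - 2 * (5223 * (y + p)) ^ 2) ^ 2 + c
          = (u ^ 2 + c) + p * ((-10446 * s - 54559458 * p) * (2 * u + p * (-10446 * s - 54559458 * p))) := by
        rw [hu, hs]; ring
      rw [e]
      exact dvd_add hd (Dvd.intro _ rfl)
    · have e : (869 - 2 * (5223 * (y + p)) - 2 * (5223 * (y + p)) ^ 2) ^ 2 + c
          = (u ^ 2 + c) + (p : ℤ) ^ 2 * (-109118916 * u + (-10446 * s - 54559458 * p) ^ 2)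
            + p * (-20892 * (u * s)) := by
        rw [hu, hs]; ring
      rw [e]
      intro h2
      have h3 : (p : ℤ) ^ 2 ∣ p * (-20892 * (u * s)) :=
        (dvd_add_right (dvd_add h1 (Dvd.intro _ rfl))).1 h2
      rw [sq] at h3
      have h5 : (p : ℤ) ∣ -20892 * (u * s) := Int.dvd_of_mul_dvd_mul_left hpr.ne_zero h3
      rcases hpr.dvd_or_dvd h5 with h | h
      · rw [show (-20892 : ℤ) = -(20892) by norm_num, dvd_neg] at h
        exact hsmall _ (by norm_num) (by norm_num) h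
      · rcases hpr.dvd_or_dvd h with h | h
        · exact hup h
        · exact hsp h
  · exact ⟨y, by rw [← hu]; exact hd, by rw [← hu]; exact h1⟩

/-- chinese remainders -/
theorem exists_crt {X Y : ℤ} (h : IsCoprime X Y) : ∃ c : ℤ, X ∣ c - 1 ∧ Y ∣ c := by
  obtain ⟨a, b, hab⟩ := h
  exact ⟨b * Y, ⟨-a, by linear_combination hab⟩, ⟨b, by ring⟩⟩

theorem exists_crt3 {p q M : ℕ} (hp : p.Prime) (hq : q.Prime) (hne : p ≠ q) (hM : 0 < M)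
    (hpM : M < p) (hqM : M < q) :
    ∃ c₁ c₂ c₃ : ℤ, ((p : ℤ) ^ 2 ∣ c₁ - 1 ∧ (q : ℤ) ^ 2 ∣ c₁ ∧ (M : ℤ) ∣ c₁) ∧
      ((p : ℤ) ^ 2 ∣ c₂ ∧ (q : ℤ) ^ 2 ∣ c₂ - 1 ∧ (M : ℤ) ∣ c₂) ∧
      ((p : ℤ) ^ 2 ∣ c₃ ∧ (q : ℤ) ^ 2 ∣ c₃ ∧ (M : ℤ) ∣ c₃ - 1) := by
  have h1 : IsCoprime ((p : ℤ) ^ 2) ((q : ℤ) ^ 2) := by
    apply IsCoprime.pow
    rw [Nat.isCoprime_iff_coprime]
    exact (Nat.coprime_primes hp hq).2 hne
  have h2 : IsCoprime ((p : ℤ) ^ 2) (M : ℤ) := by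
    apply IsCoprime.pow_left
    rw [Nat.isCoprime_iff_coprime, Nat.Prime.coprime_iff_not_dvd hp]
    intro h
    exact absurd (Nat.le_of_dvd hM h) (by omega)
  have h3 : IsCoprime ((q : ℤ) ^ 2) (M : ℤ) := by
    apply IsCoprime.pow_left
    rw [Nat.isCoprime_iff_coprime, Nat.Prime.coprime_iff_not_dvd hq]
    intro h
    exact absurd (Nat.le_of_dvd hM h) (by omega)
  obtain ⟨c₁, a1, b1⟩ := exists_crt (h1.mul_right h2)
  obtain ⟨c₂, a2, b2⟩ := exists_crt (h1.symm.mul_right h3)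
  obtain ⟨c₃, a3, b3⟩ := exists_crt (h2.symm.mul_right h3.symm)
  exact ⟨c₁, c₂, c₃, ⟨a1, (Dvd.intro _ rfl).trans b1, (Dvd.intro_left _ rfl).trans b1⟩,
    ⟨(Dvd.intro _ rfl).trans b2, a2, (Dvd.intro_left _ rfl).trans b2⟩,
    ⟨(Dvd.intro _ rfl).trans b3, (Dvd.intro_left _ rfl).trans b3, a3⟩⟩

end H76EF
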