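import Mathlib
import Pool.Agent.H76.EN.Ram

/-!
# Primes of degree one, and separating a prime from the others above the same number
-/

namespace H76EF

open NumberField H76EN

variable {F : Type} [Field F] [NumberField F]

theorem natCast_mem_ne_bot {p : ℕ} (hp : p.Prime) {P : Ideal (𝓞 F)} (hpP : (p : 𝓞 F) ∈ P) :
    P ≠ ⊥ := by
  intro h
  rw [h, Ideal.mem_bot] at hpP
  have : (p : 𝓞 F) ≠ 0 := by exact_mod_cast hp.ne_zero
  exact this hpP

theorem under_eq {p : ℕ} (hp : p.Prime) {P : Ideal (𝓞 F)} (hP : P.IsPrime)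
    (hpP : (p : 𝓞 F) ∈ P) : P.under ℤ = Ideal.span {(p : ℤ)} := by
  have hqprime : Prime (p : ℤ) := Nat.prime_iff_prime_int.1 hp
  have hmax : (Ideal.span {(p : ℤ)}).IsMaximal :=
    ((Ideal.span_singleton_prime hqprime.ne_zero).mpr hqprime).isMaximal
      (by simpa using hp.ne_zero)
  symm
  apply hmax.eq_of_le
  · exact (Ideal.IsPrime.under ℤ P).ne_top
  · rw [Ideal.span_le, Set.singleton_subset_iff]
    show (p : ℤ) ∈ P.under ℤ
    rw [Ideal.under_def, Ideal.mem_comap]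
    simpa using hpP

theorem intCast_mem_iff {p : ℕ} (hp : p.Prime) {P : Ideal (𝓞 F)} (hP : P.IsPrime)
    (hpP : (p : 𝓞 F) ∈ P) (m : ℤ) : (m : 𝓞 F) ∈ P ↔ (p : ℤ) ∣ m := by
  rw [← Ideal.mem_span_singleton, ← under_eq hp hP hpP, Ideal.under_def, Ideal.mem_comap]
  rw [eq_intCast]

/-- unramified primes -/
theorem not_mem_sq {p : ℕ} (hp : p.Prime) (hdisc : ¬ (p : ℤ) ∣ discr F) {P : Ideal (𝓞 F)}
    (hP : P.IsPrime) (hpP : (p : 𝓞 F) ∈ P) : (p : 𝓞 F) ∉ P ^ 2 := by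
  intro hq2
  apply hdisc
  have hPq := under_eq hp hP hpP
  have hPmax : P.IsMaximal := hP.isMaximal (natCast_mem_ne_bot hp hpP)
  have hmap : P ^ 2 ∣ (Ideal.span {(p : ℤ)}).map (algebraMap ℤ (𝓞 F)) := by
    rw [Ideal.dvd_iff_le, Ideal.map_span, Ideal.span_le, Set.image_singleton,
      Set.singleton_subset_iff]
    simpa using hq2
  have hqprime : Prime (p : ℤ) := Nat.prime_iff_prime_int.1 hp
  have hmax : (Ideal.span {(p : ℤ)}).IsMaximal :=
    ((Ideal.span_singleton_prime hqprime.ne_zero).mpr hqprime).isMaximal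
      (by simpa using hp.ne_zero)
  have hdiff := pow_sub_one_dvd_differentIdeal (A := ℤ) (B := 𝓞 F) (p := Ideal.span {(p : ℤ)}) P 2
    (by simpa using hp.ne_zero) hmap
  have h5 : P ∣ differentIdeal ℤ (𝓞 F) := by simpa using hdiff
  have h6 := Ideal.absNorm_dvd_absNorm_of_le (Ideal.dvd_iff_le.mp h5)
  rw [absNorm_differentIdeal F (𝓞 F)] at h6
  have : P.LiesOver (Ideal.span {(p : ℤ)}) := ⟨hPq.symm⟩
  rw [← Ideal.natAbs_pow_inertiaDeg (p : ℤ), ← Int.natAbs_pow, Int.natAbs_dvd_natAbs] at h6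
  exact (dvd_pow_self _ (Ideal.inertiaDeg_pos ..).ne').trans h6

/-- integers divisible exactly once by `p` -/
theorem intCast_not_mem_sq {p : ℕ} (hp : p.Prime) (hdisc : ¬ (p : ℤ) ∣ discr F)
    {P : Ideal (𝓞 F)} (hP : P.IsPrime) (hpP : (p : 𝓞 F) ∈ P) (m : ℤ) (h1 : (p : ℤ) ∣ m)
    (h2 : ¬ (p : ℤ) ^ 2 ∣ m) : (m : 𝓞 F) ∉ P ^ 2 := by
  intro h
  obtain ⟨c, hc⟩ := h1
  have hPmax : P.IsMaximal := hP.isMaximal (natCast_mem_ne_bot hp hpP)
  have hcP : (c : 𝓞 F) ∉ P := by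
    rw [intCast_mem_iff hp hP hpP]
    intro hd
    apply h2
    rw [hc, sq]
    exact mul_dvd_mul_left _ hd
  apply not_mem_sq hp hdisc hP hpP
  apply mem_sq_of_mul_mem P _ _ _ hcP
  have : (p : 𝓞 F) * (c : 𝓞 F) = (m : 𝓞 F) := by
    rw [hc]; push_cast; ring
  rw [this]
  exact h

/-- a prime of degree one -/
theorem exists_prime_of_hom {p : ℕ} (hp : p.Prime) (φ : 𝓞 F →+* ZMod p) :
    ∃ P : Ideal (𝓞 F), P.IsPrime ∧ Ideal.absNorm P = p ∧ (p : 𝓞 F) ∈ P := by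
  have : Fact p.Prime := ⟨hp⟩
  refine ⟨RingHom.ker φ, RingHom.ker_isPrime φ, ?_, ?_⟩
  · rw [Ideal.absNorm_apply, Submodule.cardQuot_apply]
    have e := RingHom.quotientKerEquivOfSurjective (ZMod.ringHom_surjective φ)
    rw [Nat.card_congr e.toEquiv, Nat.card_zmod]
  · rw [RingHom.mem_ker, map_natCast, ZMod.natCast_self]

/-- separating `P` from the other primes above `p` -/
theorem exists_sep {p : ℕ} (hp : p.Prime) (hdisc : ¬ (p : ℤ) ∣ discr F) {P : Ideal (𝓞 F)}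
    (hP : P.IsPrime) (hpP : (p : 𝓞 F) ∈ P) :
    ∃ b : 𝓞 F, 1 - b ∈ P ^ 2 ∧ ∀ P' : Ideal (𝓞 F), P'.IsPrime → (p : 𝓞 F) ∈ P' → P' ≠ P →
      b ∈ P' := by
  have hPmax : P.IsMaximal := hP.isMaximal (natCast_mem_ne_bot hp hpP)
  have hdvd : P ∣ Ideal.span {(p : 𝓞 F)} := by
    rw [Ideal.dvd_iff_le, Ideal.span_le, Set.singleton_subset_iff]
    exact hpP
  obtain ⟨S, hS⟩ := hdvd
  have hSP : ¬ S ≤ P := by
    intro hle
    apply not_mem_sq hp hdisc hP hpP
    have h1 : (p : 𝓞 F) ∈ P * S := by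
      rw [← hS]; exact Ideal.mem_span_singleton_self _
    rw [sq]
    exact Ideal.mul_mono_right hle h1
  have hcop : IsCoprime P S := by
    rw [Ideal.isCoprime_iff_sup_eq]
    by_contra hne
    have h1 : P = P ⊔ S := hPmax.eq_of_le hne le_sup_left
    apply hSP
    rw [h1]
    exact le_sup_right
  have hcop2 : IsCoprime (P ^ 2) S := hcop.pow_left
  obtain ⟨a, ha, b, hb, hab⟩ := Ideal.isCoprime_iff_exists.1 hcop2
  refine ⟨b, ?_, ?_⟩
  · have : 1 - b = a := by rw [← hab]; ring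
    rw [this]; exact ha
  · intro P' hP' hpP' hne
    have h1 : P * S ≤ P' := by
      rw [← hS, Ideal.span_le, Set.singleton_subset_iff]
      exact hpP'
    rcases hP'.mul_le.1 h1 with h2 | h2
    · exact absurd (hPmax.eq_of_le hP'.ne_top h2).symm hne
    · exact h2 hb

end H76EF
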