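import Mathlib

/-!
# The curve and its bad primes
-/

namespace H76EF

open NumberField

/-- the curve -/
theorem exists_curve {R : Type} [CommRing R] (w d : R)
    (hd : d = (869 - 2 * w - 2 * w ^ 2) ^ 2 + 12) :
    ∃ W : WeierstrassCurve R, W.c₄ = (d + 1728) * d ∧ W.Δ = -((d + 1728) ^ 3 * d ^ 2) := by
  subst hd
  refine ⟨⟨1, 189225 - 869 * (w * (w + 1)) + (w * (w + 1)) ^ 2, 0,
    36 * ((869 - 2 * w - 2 * w ^ 2) ^ 2 + 12 + 1728),
    ((869 - 2 * w - 2 * w ^ 2) ^ 2 + 12 + 1728) ^ 2⟩, ?_, ?_⟩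
  · simp only [WeierstrassCurve.c₄, WeierstrassCurve.b₂, WeierstrassCurve.b₄]
    ring
  · simp only [WeierstrassCurve.Δ, WeierstrassCurve.b₂, WeierstrassCurve.b₄,
      WeierstrassCurve.b₆, WeierstrassCurve.b₈]
    ring

section field

variable {k : Type} [Field k] [Finite k]

theorem card_mod_three (u : k) (h2 : (2 : k) ≠ 0) (h3 : (3 : k) ≠ 0) (hu : u ^ 2 = -12) :
    Nat.card k % 3 = 1 := by
  obtain ⟨z, hz⟩ : ∃ z : k, 4 * z = u - 2 := ⟨(u - 2) / 4, by
    have h4 : (4 : k) ≠ 0 := by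
      intro h
      apply h2
      have : (2 : k) * 2 = 0 := by rw [← h]; norm_num
      rcases mul_eq_zero.1 this with h | h <;> exact h
    field_simp⟩
  have hq : z ^ 2 + z + 1 = 0 := by
    have h16 : (16 : k) * (z ^ 2 + z + 1) = 0 := by
      linear_combination (4 * z + 4 + (u - 2)) * hz + hu
    have h16' : (16 : k) ≠ 0 := by
      intro h
      apply h2
      have : (2 : k) ^ 4 = 0 := by rw [← h]; norm_num
      exact pow_eq_zero_iff (by norm_num) |>.1 this
    rcases mul_eq_zero.1 h16 with h | h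
    · exact absurd h h16'
    · exact h
  have hz3 : z ^ 3 = 1 := by linear_combination (z - 1) * hq
  have hz0 : z ≠ 0 := by
    intro h
    rw [h] at hq
    norm_num at hq
  have hz1 : z ≠ 1 := by
    intro h
    apply h3
    rw [h] at hq
    linear_combination hq
  obtain ⟨v, hv⟩ : ∃ v : kˣ, (v : k) = z := ⟨Units.mk0 z hz0, rfl⟩
  have hv3 : v ^ 3 = 1 := by
    apply Units.ext
    rw [Units.val_pow_eq_pow_val, hv, hz3]
    rfl
  have hv1 : v ≠ 1 := by
    intro h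
    apply hz1
    rw [← hv, h]
    rfl
  have : Fact (Nat.Prime 3) := ⟨Nat.prime_three⟩
  have ho : orderOf v = 3 := orderOf_eq_prime hv3 hv1
  have hd : orderOf v ∣ Nat.card kˣ := orderOf_dvd_natCard v
  rw [ho, Nat.card_units] at hd
  have hpos : 0 < Nat.card k := Nat.card_pos
  omega

theorem card_mod_four (r s : k) (h2 : (2 : k) ≠ 0) (hs : s ≠ 0) (h : r ^ 2 + s ^ 2 = 0) :
    Nat.card k % 4 = 1 := by
  have : Fintype k := Fintype.ofFinite k
  have h1 : IsSquare (-1 : k) := by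
    refine ⟨r / s, ?_⟩
    field_simp
    linear_combination -h
  have h3 := FiniteField.isSquare_neg_one_iff.1 h1
  have h4 : Fintype.card k % 2 = 1 := by
    apply FiniteField.odd_card_of_char_ne_two
    intro hc
    apply h2
    have := ringChar.Nat.cast_ringChar (R := k)
    rw [hc] at this
    exact_mod_cast this
  rw [Nat.card_eq_fintype_card]
  omega

end field

variable {F : Type} [Field F] [NumberField F]

theorem not_all {P : Ideal (𝓞 F)} (hP : P.IsPrime) (m : 𝓞 F) (n : 𝓞 F) (hm : m ∈ P)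
    (k : 𝓞 F) (hn : n ∈ P) (l : 𝓞 F) (h : k * m + l * n = 1) : False := by
  apply hP.ne_top
  rw [Ideal.eq_top_iff_one, ← h]
  exact P.add_mem (P.mul_mem_left _ hm) (P.mul_mem_left _ hn)

/-- the primes dividing `d` -/
theorem primes_d (y d : 𝓞 F)
    (hd : d = (869 - 2 * (5223 * y) - 2 * (5223 * y) ^ 2) ^ 2 + 12) (hd0 : d ≠ 0)
    (P : Ideal (𝓞 F)) (hP : P.IsPrime) (hdP : d ∈ P) :
    (6 : 𝓞 F) ∉ P ∧ Ideal.absNorm P % 3 = 1 := by
  obtain ⟨u, hu⟩ : ∃ u, u = 869 - 2 * (5223 * y) - 2 * (5223 * y) ^ 2 := ⟨_, rfl⟩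
  rw [← hu] at hd
  have h2 : (2 : 𝓞 F) ∉ P := by
    intro h2
    have h1 : u ∈ P := by
      apply hP.mem_of_pow_mem 2
      have : u ^ 2 = d - 6 * 2 := by rw [hd]; ring
      rw [this]
      exact P.sub_mem hdP (P.mul_mem_left _ h2)
    exact not_all hP u 2 h1 1 h2 (5223 * y + (5223 * y) ^ 2 - 434) (by rw [hu]; ring)
  have h3 : (3 : 𝓞 F) ∉ P := by
    intro h3
    have h1 : u ∈ P := by
      apply hP.mem_of_pow_mem 2
      have : u ^ 2 = d - 4 * 3 := by rw [hd]; ring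
      rw [this]
      exact P.sub_mem hdP (P.mul_mem_left _ h3)
    exact not_all hP u 3 h1 (-1) h3 (290 - 2 * (1741 * y) - 2 * 1741 * (5223 * y ^ 2))
      (by rw [hu]; ring)
  have h6 : (6 : 𝓞 F) ∉ P := by
    intro h6
    have : (2 : 𝓞 F) * 3 ∈ P := by
      have : (2 : 𝓞 F) * 3 = 6 := by norm_num
      rw [this]; exact h6
    rcases hP.mem_or_mem this with h | h
    · exact h2 h
    · exact h3 h
  refine ⟨h6, ?_⟩
  have hPb : P ≠ ⊥ := by
    intro h
    rw [h, Ideal.mem_bot] at hdP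
    exact hd0 hdP
  have hmax : P.IsMaximal := hP.isMaximal hPb
  letI : Field (𝓞 F ⧸ P) := Ideal.Quotient.field P
  have hfin : Finite (𝓞 F ⧸ P) := Ideal.finiteQuotientOfFreeOfNeBot P hPb
  rw [Ideal.absNorm_apply, Submodule.cardQuot_apply]
  apply card_mod_three (Ideal.Quotient.mk P u)
  · intro h
    apply h2
    rw [← Ideal.Quotient.eq_zero_iff_mem]
    exact_mod_cast h
  · intro h
    apply h3
    rw [← Ideal.Quotient.eq_zero_iff_mem]
    exact_mod_cast h
  · have h0 : Ideal.Quotient.mk P d = 0 := Ideal.Quotient.eq_zero_iff_mem.2 hdP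
    rw [hd, map_add, map_pow] at h0
    have : Ideal.Quotient.mk P 12 = 12 := map_ofNat _ 12
    rw [this] at h0
    linear_combination h0

/-- the primes dividing `d + 1728` -/
theorem primes_l (y d : 𝓞 F)
    (hd : d = (869 - 2 * (5223 * y) - 2 * (5223 * y) ^ 2) ^ 2 + 12) (hd0 : d + 1728 ≠ 0)
    (P : Ideal (𝓞 F)) (hP : P.IsPrime) (hdP : d + 1728 ∈ P) :
    (6 : 𝓞 F) ∉ P ∧ Ideal.absNorm P % 4 = 1 := by
  obtain ⟨u, hu⟩ : ∃ u, u = 869 - 2 * (5223 * y) - 2 * (5223 * y) ^ 2 := ⟨_, rfl⟩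
  obtain ⟨s, hs⟩ : ∃ s, s = 1 + 2 * (5223 * y) := ⟨_, rfl⟩
  rw [← hu] at hd
  have h2 : (2 : 𝓞 F) ∉ P := by
    intro h2
    have h1 : u ∈ P := by
      apply hP.mem_of_pow_mem 2
      have : u ^ 2 = (d + 1728) - 870 * 2 := by rw [hd]; ring
      rw [this]
      exact P.sub_mem hdP (P.mul_mem_left _ h2)
    exact not_all hP u 2 h1 1 h2 (5223 * y + (5223 * y) ^ 2 - 434) (by rw [hu]; ring)
  have h3 : (3 : 𝓞 F) ∉ P := by
    intro h3
    have h1 : u ∈ P := by
      apply hP.mem_of_pow_mem 2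
      have : u ^ 2 = (d + 1728) - 580 * 3 := by rw [hd]; ring
      rw [this]
      exact P.sub_mem hdP (P.mul_mem_left _ h3)
    exact not_all hP u 3 h1 (-1) h3 (290 - 2 * (1741 * y) - 2 * 1741 * (5223 * y ^ 2))
      (by rw [hu]; ring)
  have h6 : (6 : 𝓞 F) ∉ P := by
    intro h6
    have : (2 : 𝓞 F) * 3 ∈ P := by
      have : (2 : 𝓞 F) * 3 = 6 := by norm_num
      rw [this]; exact h6
    rcases hP.mem_or_mem this with h | h
    · exact h2 h
    · exact h3 h
  refine ⟨h6, ?_⟩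
  have hsum : d + 1728 = (u + 1) ^ 2 + s ^ 2 := by
    rw [hd, hs]
    linear_combination (-2) * hu
  have hsP : s ∉ P := by
    intro h1
    have h4 : u + 1 ∈ P := by
      apply hP.mem_of_pow_mem 2
      have : (u + 1) ^ 2 = (d + 1728) - s * s := by rw [hsum]; ring
      rw [this]
      exact P.sub_mem hdP (P.mul_mem_left _ h1)
    have h5 : (1741 : 𝓞 F) ∈ P := by
      have : (1741 : 𝓞 F) = 2 * (u + 1) + s * s := by rw [hu, hs]; ring
      rw [this]
      exact P.add_mem (P.mul_mem_left _ h4) (P.mul_mem_left _ h1)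
    exact not_all hP s 1741 h1 1 h5 (-(6 * y)) (by rw [hs]; ring)
  have hPb : P ≠ ⊥ := by
    intro h
    rw [h, Ideal.mem_bot] at hdP
    exact hd0 hdP
  have hmax : P.IsMaximal := hP.isMaximal hPb
  letI : Field (𝓞 F ⧸ P) := Ideal.Quotient.field P
  have hfin : Finite (𝓞 F ⧸ P) := Ideal.finiteQuotientOfFreeOfNeBot P hPb
  rw [Ideal.absNorm_apply, Submodule.cardQuot_apply]
  apply card_mod_four (Ideal.Quotient.mk P (u + 1)) (Ideal.Quotient.mk P s)
  · intro h
    apply h2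
    rw [← Ideal.Quotient.eq_zero_iff_mem]
    exact_mod_cast h
  · intro h
    apply hsP
    rw [← Ideal.Quotient.eq_zero_iff_mem]
    exact h
  · rw [← map_pow, ← map_pow, ← map_add, ← hsum]
    exact Ideal.Quotient.eq_zero_iff_mem.2 hdP

end H76EF
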