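import Mathlib
import Pool.Agent.H76.EN.Padic

/-!
# Primes of degree one
-/

namespace H76EF

open Polynomial NumberField H76EN

/-- infinitely many primes divide values of a nonconstant integral polynomial -/
theorem schur (f : ℤ[X]) (hf : 0 < f.natDegree) (B : ℕ) :
    ∃ p : ℕ, p.Prime ∧ B < p ∧ ∃ m : ℤ, (p : ℤ) ∣ f.eval m := by
  obtain ⟨c, hc⟩ : ∃ c, c = f.eval 0 := ⟨_, rfl⟩
  by_cases hc0 : c = 0
  · obtain ⟨p, hp1, hp2⟩ := Nat.exists_infinite_primes (B + 1)
    exact ⟨p, hp2, by omega, 0, by rw [← hc, hc0]; exact dvd_zero _⟩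
  · -- find t with f (c B! t) ≠ ± c
    have hne1 : f - C c ≠ 0 := by
      intro h
      have : f = C c := sub_eq_zero.1 h
      rw [this, natDegree_C] at hf
      exact lt_irrefl _ hf
    have hne2 : f + C c ≠ 0 := by
      intro h
      have : f = C (-c) := by rw [C_neg]; exact eq_neg_of_add_eq_zero_left h
      rw [this, natDegree_C] at hf
      exact lt_irrefl _ hf
    have hne : (f - C c) * (f + C c) ≠ 0 := mul_ne_zero hne1 hne2
    obtain ⟨M, hM⟩ : ∃ M : ℤ, M = (Nat.factorial B : ℤ) := ⟨_, rfl⟩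
    have hM0 : M ≠ 0 := by rw [hM]; exact_mod_cast Nat.factorial_ne_zero B
    have hex : ∃ t : ℤ, ((f - C c) * (f + C c)).eval (c * M * t) ≠ 0 := by
      by_contra hcon
      push Not at hcon
      apply hne
      apply eq_zero_of_infinite_isRoot
      apply Set.Infinite.mono (s := Set.range (fun t : ℤ => c * M * t))
      · rintro x ⟨t, rfl⟩
        exact hcon t
      · apply Set.infinite_range_of_injective
        intro a b hab
        exact mul_left_cancel₀ (mul_ne_zero hc0 hM0) hab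
    obtain ⟨t, ht⟩ := hex
    rw [eval_mul, eval_sub, eval_add, eval_C] at ht
    have hd : c * M * t ∣ f.eval (c * M * t) - c := by
      have := sub_dvd_eval_sub (c * M * t) 0 f
      rw [sub_zero, ← hc] at this
      exact this
    obtain ⟨k, hk⟩ := hd
    have hval : f.eval (c * M * t) = c * (1 + M * t * k) := by linear_combination hk
    have hunit : ¬ IsUnit (1 + M * t * k) := by
      intro hu
      apply ht
      rw [hval]
      rcases Int.isUnit_iff.1 hu with h | h
      · rw [h]; ring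
      · rw [h]; ring
    have hna : (1 + M * t * k).natAbs ≠ 1 := by
      intro h
      exact hunit (Int.isUnit_iff_natAbs_eq.2 h)
    obtain ⟨p, hp, hpd⟩ := Nat.exists_prime_and_dvd hna
    have hpd' : (p : ℤ) ∣ 1 + M * t * k := Int.natCast_dvd.2 hpd
    refine ⟨p, hp, ?_, c * M * t, by rw [hval]; exact Dvd.dvd.mul_left hpd' _⟩
    by_contra hle
    have h1 : p ∣ Nat.factorial B := (Nat.Prime.dvd_factorial hp).2 (not_lt.1 hle)
    have h2 : (p : ℤ) ∣ M := by rw [hM]; exact_mod_cast h1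
    have h3 : (p : ℤ) ∣ 1 := by
      have h4 : (p : ℤ) ∣ M * t * k := Dvd.dvd.mul_right (Dvd.dvd.mul_right h2 _) _
      exact (dvd_add_left h4).1 hpd'
    have h5 := Int.le_of_dvd (by norm_num) h3
    have h6 := hp.two_le
    omega

theorem clear_den (a : ℚ[X]) : ∃ (D : ℤ) (A : ℤ[X]), D ≠ 0 ∧
    A.map (Int.castRingHom ℚ) = C (D : ℚ) * a := by
  obtain ⟨b, hbm, hb⟩ := IsLocalization.integerNormalization_spec (nonZeroDivisors ℤ) a
  refine ⟨b, IsLocalization.integerNormalization (nonZeroDivisors ℤ) a,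
    nonZeroDivisors.ne_zero hbm, ?_⟩
  have : Int.castRingHom ℚ = algebraMap ℤ ℚ := rfl
  rw [this, hb]
  ext n
  simp

/-- for a separable integral polynomial the derivative does not vanish at roots modulo large
primes -/
theorem large_simple (f : ℤ[X]) (hsep : (f.map (Int.castRingHom ℚ)).Separable) :
    ∃ D : ℕ, ∀ p : ℕ, D < p → ∀ m : ℤ, (p : ℤ) ∣ f.eval m →
      ¬ (p : ℤ) ∣ f.derivative.eval m := by
  obtain ⟨a, b, hab⟩ := hsep
  obtain ⟨D1, A, hD1, hA⟩ := clear_den a
  obtain ⟨D2, B, hD2, hB⟩ := clear_den b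
  refine ⟨(D1 * D2).natAbs, ?_⟩
  intro p hp m h0 h1
  have key : D1 * D2 = D2 * (A.eval m) * f.eval m + D1 * (B.eval m) * f.derivative.eval m := by
    have h2 := congrArg (eval (m : ℚ)) hab
    rw [eval_add, eval_mul, eval_mul, derivative_map, eval_one] at h2
    have e1 : (f.map (Int.castRingHom ℚ)).eval (m : ℚ) = ((f.eval m : ℤ) : ℚ) := by
      rw [eval_intCast_map]; simp
    have e2 : (f.derivative.map (Int.castRingHom ℚ)).eval (m : ℚ)
        = ((f.derivative.eval m : ℤ) : ℚ) := by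
      rw [eval_intCast_map]; simp
    have e3 : (A.map (Int.castRingHom ℚ)).eval (m : ℚ) = ((A.eval m : ℤ) : ℚ) := by
      rw [eval_intCast_map]; simp
    have e4 : (B.map (Int.castRingHom ℚ)).eval (m : ℚ) = ((B.eval m : ℤ) : ℚ) := by
      rw [eval_intCast_map]; simp
    rw [e1, e2] at h2
    rw [hA, eval_mul, eval_C] at e3
    rw [hB, eval_mul, eval_C] at e4
    have : ((D1 * D2 : ℤ) : ℚ) = ((D2 * (A.eval m) * f.eval m
        + D1 * (B.eval m) * f.derivative.eval m : ℤ) : ℚ) := by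
      push_cast
      rw [← e3, ← e4]
      linear_combination (-(D1 : ℚ) * D2) * h2
    exact_mod_cast this
  have hd : (p : ℤ) ∣ D1 * D2 := by
    rw [key]
    exact dvd_add (Dvd.dvd.mul_left h0 _) (Dvd.dvd.mul_left h1 _)
  have hd' : p ∣ (D1 * D2).natAbs := Int.natCast_dvd.1 hd
  have := Nat.le_of_dvd (Int.natAbs_pos.2 (mul_ne_zero hD1 hD2)) hd'
  omega

/-- homomorphisms from the integers of a number field to arbitrarily large prime fields -/
theorem exists_hom_large (K : Type) [Field K] [NumberField K] (B : ℕ) :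
    ∃ p : ℕ, p.Prime ∧ B < p ∧ Nonempty (𝓞 K →+* ZMod p) := by
  obtain ⟨α, hα⟩ := Field.exists_primitive_element ℚ K
  have halg : IsAlgebraic ℤ α := by
    have h1 : IsAlgebraic ℚ α := Algebra.IsAlgebraic.isAlgebraic α
    exact (IsFractionRing.isAlgebraic_iff ℤ ℚ K).2 h1
  obtain ⟨c, hc0, hcint⟩ := halg.exists_integral_multiple
  obtain ⟨g, hg⟩ : ∃ g : K, g = c • α := ⟨_, rfl⟩
  rw [← hg] at hcint
  have hgc : g = (c : K) * α := by rw [hg, zsmul_eq_mul]
  have hc0' : (c : K) ≠ 0 := by exact_mod_cast hc0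
  have hgQ : IsIntegral ℚ g := hcint.tower_top
  have htop : IntermediateField.adjoin ℚ {g} = ⊤ := by
    rw [eq_top_iff, ← hα]
    rw [IntermediateField.adjoin_simple_le_iff]
    have h1 : g ∈ IntermediateField.adjoin ℚ {g} := IntermediateField.mem_adjoin_simple_self ℚ g
    have h2 : α = ((c : ℚ)⁻¹) • g := by
      rw [hgc, Algebra.smul_def]
      have : algebraMap ℚ K ((c : ℚ)⁻¹) = (c : K)⁻¹ := by
        rw [map_inv₀, map_intCast]
      rw [this, ← mul_assoc, inv_mul_cancel₀ hc0', one_mul]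
    rw [h2]
    exact IntermediateField.smul_mem _ h1
  have htop' : Algebra.adjoin ℚ {g} = ⊤ := by
    have h1 := IntermediateField.adjoin_simple_toSubalgebra_of_isAlgebraic hgQ.isAlgebraic
    rw [htop] at h1
    rw [← h1]
    rfl
  obtain ⟨pb, hpb⟩ : ∃ pb : PowerBasis ℚ K, pb.gen = g :=
    ⟨PowerBasis.ofAdjoinEqTop hgQ htop', by simp⟩
  obtain ⟨f, hf⟩ : ∃ f : ℤ[X], f = minpoly ℤ g := ⟨_, rfl⟩
  have hfQ : minpoly ℚ pb.gen = f.map (Int.castRingHom ℚ) := by
    rw [hpb, hf]
    exact minpoly.isIntegrallyClosed_eq_field_fractions' ℚ hcint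
  have hirr : Irreducible (f.map (Int.castRingHom ℚ)) := by
    rw [← hfQ, hpb]; exact minpoly.irreducible hgQ
  have hdeg : 0 < f.natDegree := by
    rw [hf]; exact minpoly.natDegree_pos hcint
  obtain ⟨D, hD⟩ := large_simple f hirr.separable
  obtain ⟨p, hp, hpB, m, hm⟩ := schur f hdeg (max B D)
  have hpD : D < p := lt_of_le_of_lt (le_max_right B D) hpB
  have : Fact p.Prime := ⟨hp⟩
  obtain ⟨φ, -⟩ := hom_of_simple_root p K pb f hfQ ⟨g, hcint⟩ hpb.symm m hm (hD p hpD m hm)
  exact ⟨p, hp, lt_of_le_of_lt (le_max_left B D) hpB, ⟨φ⟩⟩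

/-- the same with a root of a given monic polynomial modulo the prime -/
theorem exists_hom_root (F : Type) [Field F] [NumberField F] (g : ℤ[X]) (hg : g.Monic)
    (hdeg : 0 < g.natDegree) (B : ℕ) :
    ∃ p : ℕ, p.Prime ∧ B < p ∧ Nonempty (𝓞 F →+* ZMod p) ∧ ∃ n : ℤ, (p : ℤ) ∣ g.eval n := by
  -- a root in the algebraic closure
  have hdegF : (g.map (Int.castRingHom (AlgebraicClosure F))).degree ≠ 0 := by
    rw [hg.degree_map, degree_eq_natDegree hg.ne_zero]
    exact_mod_cast hdeg.ne'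
  obtain ⟨s, hs⟩ := IsAlgClosed.exists_root _ hdegF
  have hs' : aeval s g = 0 := by
    rw [IsRoot.def, eval_map] at hs
    exact hs
  have hint : IsIntegral ℤ s := ⟨g, hg, hs'⟩
  obtain ⟨K, hK⟩ : ∃ K : IntermediateField F (AlgebraicClosure F),
      K = IntermediateField.adjoin F {s} := ⟨_, rfl⟩
  have hsK : s ∈ K := by rw [hK]; exact IntermediateField.mem_adjoin_simple_self F s
  have hfin : FiniteDimensional F K := by
    rw [hK]
    exact IntermediateField.adjoin.finiteDimensional hint.tower_top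
  have hnf : NumberField K := NumberField.of_module_finite F K
  obtain ⟨p, hp, hpB, ⟨ψ⟩⟩ := exists_hom_large K B
  refine ⟨p, hp, hpB, ⟨ψ.comp (algebraMap (𝓞 F) (𝓞 K))⟩, ?_⟩
  have hsint : IsIntegral ℤ (⟨s, hsK⟩ : K) := by
    have h1 : IsIntegral ℤ (K.val (⟨s, hsK⟩ : K)) := hint
    have hinj : Function.Injective (K.val.restrictScalars ℤ) := Subtype.val_injective
    exact (isIntegral_algHom_iff (K.val.restrictScalars ℤ) hinj).1 h1
  obtain ⟨σ, hσ⟩ : ∃ σ : 𝓞 K, (σ : K) = ⟨s, hsK⟩ := ⟨⟨⟨s, hsK⟩, hsint⟩, rfl⟩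
  have hσ0 : aeval σ g = 0 := by
    have h1 : aeval (⟨s, hsK⟩ : K) g = 0 := by
      have h2 := aeval_algHom_apply (K.val.restrictScalars ℤ) (⟨s, hsK⟩ : K) g
      have h3 : (K.val.restrictScalars ℤ) (⟨s, hsK⟩ : K) = s := rfl
      rw [h3, hs'] at h2
      exact Subtype.ext h2.symm
    have h4 := aeval_algebraMap_apply K σ g
    apply RingOfIntegers.ext
    have h5 : algebraMap (𝓞 K) K σ = ⟨s, hsK⟩ := hσ
    rw [h5, h1] at h4
    exact h4.symm.trans (map_zero (algebraMap (𝓞 K) K)).symm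
  have : Fact p.Prime := ⟨hp⟩
  obtain ⟨n, hn⟩ := ZMod.intCast_surjective (ψ σ)
  refine ⟨n, ?_⟩
  rw [← ZMod.intCast_zmod_eq_zero_iff_dvd]
  have h6 : aeval (ψ σ) g = 0 := by
    have h7 := aeval_algHom_apply ψ.toIntAlgHom σ g
    rw [hσ0, map_zero] at h7
    exact h7
  rw [← hn] at h6
  have h8 := aeval_int (R := ZMod p) g n
  rw [← h8]
  exact h6

end H76EF
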