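import Mathlib
import Pool.Agent.H76.EF.Schur
import Pool.Agent.H76.EF.Residue
import Pool.Agent.H76.EF.Primes
import Pool.Agent.H76.EF.Ints
import Pool.Agent.H76.EF.Away

/-!
# The theorem
-/

namespace H76EF

open NumberField Polynomial

/-- the quantity `u ^ 2 + c` as a function of the parameter -/
theorem cong_mem {R : Type} [CommRing R] (I : Ideal R) (y z c : R) (h : y - z ∈ I) :
    ((869 - 2 * (5223 * y) - 2 * (5223 * y) ^ 2) ^ 2 + c)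
      - ((869 - 2 * (5223 * z) - 2 * (5223 * z) ^ 2) ^ 2 + c) ∈ I := by
  have e : ((869 - 2 * (5223 * y) - 2 * (5223 * y) ^ 2) ^ 2 + c)
      - ((869 - 2 * (5223 * z) - 2 * (5223 * z) ^ 2) ^ 2 + c)
      = (-10446 - 54559458 * (y + z)) * ((869 - 2 * (5223 * y) - 2 * (5223 * y) ^ 2)
        + (869 - 2 * (5223 * z) - 2 * (5223 * z) ^ 2)) * (y - z) := by ring
  rw [e]
  exact I.mul_mem_left _ h

theorem exists_prime_data (F : Type) [Field F] [NumberField F] (c : ℤ) (hc0 : 0 < c)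
    (hc : c ≤ 1740) (B : ℕ) :
    ∃ (p : ℕ) (P : Ideal (𝓞 F)) (y : ℤ), p.Prime ∧ B < p ∧ P.IsPrime ∧ Ideal.absNorm P = p ∧
      (p : 𝓞 F) ∈ P ∧ (p : ℤ) ∣ (869 - 2 * (5223 * y) - 2 * (5223 * y) ^ 2) ^ 2 + c ∧
      ¬ (p : ℤ) ^ 2 ∣ (869 - 2 * (5223 * y) - 2 * (5223 * y) ^ 2) ^ 2 + c := by
  obtain ⟨g, hg⟩ : ∃ g : ℤ[X], g = X ^ 4 - C 3478 * X ^ 2 + C (3024121 + 4 * c) := ⟨_, rfl⟩
  have hdeg : g.natDegree = 4 := by rw [hg]; compute_degree!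
  have hmon : g.Monic := by rw [hg]; monicity!
  obtain ⟨p, hp, hpB, ⟨φ⟩, n, hn⟩ := exists_hom_root F g hmon (by omega) (max B 3031081)
  obtain ⟨P, hP, hPn, hpP⟩ := exists_prime_of_hom hp φ
  have hn' : (p : ℤ) ∣ n ^ 4 - 3478 * n ^ 2 + (3024121 + 4 * c) := by
    rw [hg] at hn
    simpa using hn
  obtain ⟨y, hy1, hy2⟩ := exists_int hp (lt_of_le_of_lt (le_max_right _ _) hpB) c n hc0 hc hn'
  exact ⟨p, P, y, hp, lt_of_le_of_lt (le_max_left _ _) hpB, hP, hPn, hpP, hy1, hy2⟩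

theorem main (F : Type) [Field F] [NumberField F] (B : ℕ) :
    ∃ (W : WeierstrassCurve (𝓞 F)) (d : 𝓞 F),
      W.c₄ = (d + 1728) * d ∧ W.Δ = -((d + 1728) ^ 3 * d ^ 2) ∧
      (∀ P : Ideal (𝓞 F), P.IsPrime → W.Δ ∈ P → ∀ l : ℕ, 0 < l → l ≤ B + 3 → (l : 𝓞 F) ∉ P) ∧
      (∀ P : Ideal (𝓞 F), P.IsPrime → d ∈ P → Ideal.absNorm P % 3 = 1) ∧
      (∀ P : Ideal (𝓞 F), P.IsPrime → d + 1728 ∈ P → Ideal.absNorm P % 4 = 1) ∧
      ∃ (p q : ℕ) (P Q : Ideal (𝓞 F)), p.Prime ∧ q.Prime ∧ ¬ (p : ℤ) ∣ discr F ∧ P.IsPrime ∧ Q.IsPrime ∧ Ideal.absNorm P = p ∧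
        Ideal.absNorm Q = q ∧ d ∈ P ∧ d ∉ P ^ 2 ∧ d + 1728 ∈ Q ∧ d + 1728 ∉ Q ^ 2 ∧
        ∀ P' : Ideal (𝓞 F), P'.IsPrime → (p : 𝓞 F) ∈ P' → P' ≠ P →
          d ∉ P' ∧ d + 1728 ∉ P' := by
  have hD : discr F ≠ 0 := discr_ne_zero F
  have hnd : ∀ r : ℕ, (discr F).natAbs < r → ¬ (r : ℤ) ∣ discr F := by
    intro r hr hdv
    have h1 : r ∣ (discr F).natAbs := Int.natCast_dvd.1 hdv
    have h2 := Nat.le_of_dvd (Int.natAbs_pos.2 hD) h1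
    omega
  obtain ⟨M, hM⟩ : ∃ M : ℕ, M = Nat.factorial (B + 3) := ⟨_, rfl⟩
  have hM0 : 0 < M := by rw [hM]; exact Nat.factorial_pos _
  obtain ⟨t, ht1, ht2⟩ := exists_away M hM0
  obtain ⟨p, P, y₁, hp, hpB, hP, hPn, hpP, hy1, hy1'⟩ :=
    exists_prime_data F 12 (by norm_num) (by norm_num) (max M (max 3031081 (discr F).natAbs))
  obtain ⟨q, Q, y₂, hq, hqB, hQ, hQn, hqQ, hy2, hy2'⟩ :=
    exists_prime_data F 1740 (by norm_num) (by norm_num)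
      (max p (max M (max 3031081 (discr F).natAbs)))
  have hpB1 : M < p := by omega
  have hpB2 : 3031081 < p := by omega
  have hpB3 : ¬ (p : ℤ) ∣ discr F := hnd p (by omega)
  have hqB1 : M < q := by omega
  have hqB3 : ¬ (q : ℤ) ∣ discr F := hnd q (by omega)
  have hpq : p ≠ q := by omega
  obtain ⟨c₁, c₂, c₃, ⟨h11, h12, h13⟩, ⟨h21, h22, h23⟩, ⟨h31, h32, h33⟩⟩ :=
    exists_crt3 hp hq hpq hM0 hpB1 hqB1
  obtain ⟨b, hb1, hb2⟩ := exists_sep hp hpB3 hP hpP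
  have hsq : ∀ (r : ℕ) (I : Ideal (𝓞 F)) (m : ℤ), (r : 𝓞 F) ∈ I → (r : ℤ) ^ 2 ∣ m →
      (m : 𝓞 F) ∈ I ^ 2 := by
    rintro r I m hr ⟨k, hk⟩
    have : (m : 𝓞 F) = (r : 𝓞 F) ^ 2 * (k : 𝓞 F) := by rw [hk]; push_cast; ring
    rw [this]
    exact Ideal.mul_mem_right _ _ (Ideal.pow_mem_pow hr 2)
  obtain ⟨y, hy⟩ : ∃ y : 𝓞 F, y = (c₁ : 𝓞 F) * b * (y₁ : 𝓞 F) + (c₂ : 𝓞 F) * (y₂ : 𝓞 F)
      + (c₃ : 𝓞 F) * (t : 𝓞 F) := ⟨_, rfl⟩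
  obtain ⟨d, hd⟩ : ∃ d : 𝓞 F, d = (869 - 2 * (5223 * y) - 2 * (5223 * y) ^ 2) ^ 2 + 12 :=
    ⟨_, rfl⟩
  have hd' : d + 1728 = (869 - 2 * (5223 * y) - 2 * (5223 * y) ^ 2) ^ 2 + 1740 := by
    rw [hd]; ring
  -- modulo P²
  have hyP : y - (y₁ : 𝓞 F) ∈ P ^ 2 := by
    have e1 := hsq p P _ hpP h11
    have e2 := hsq p P _ hpP h21
    have e3 := hsq p P _ hpP h31
    have e : y - (y₁ : 𝓞 F) = (y₁ : 𝓞 F) * b * ((c₁ - 1 : ℤ) : 𝓞 F)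
        + (-(y₁ : 𝓞 F)) * (1 - b) + (y₂ : 𝓞 F) * ((c₂ : ℤ) : 𝓞 F)
        + (t : 𝓞 F) * ((c₃ : ℤ) : 𝓞 F) := by
      rw [hy]; push_cast; ring
    rw [e]
    exact Ideal.add_mem _ (Ideal.add_mem _ (Ideal.add_mem _ (Ideal.mul_mem_left _ _ e1)
      (Ideal.mul_mem_left _ _ hb1)) (Ideal.mul_mem_left _ _ e2)) (Ideal.mul_mem_left _ _ e3)
  -- modulo Q²
  have hyQ : y - (y₂ : 𝓞 F) ∈ Q ^ 2 := by
    have e1 := hsq q Q _ hqQ h12
    have e2 := hsq q Q _ hqQ h22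
    have e3 := hsq q Q _ hqQ h32
    have e : y - (y₂ : 𝓞 F) = (y₁ : 𝓞 F) * b * ((c₁ : ℤ) : 𝓞 F)
        + (y₂ : 𝓞 F) * ((c₂ - 1 : ℤ) : 𝓞 F) + (t : 𝓞 F) * ((c₃ : ℤ) : 𝓞 F) := by
      rw [hy]; push_cast; ring
    rw [e]
    exact Ideal.add_mem _ (Ideal.add_mem _ (Ideal.mul_mem_left _ _ e1)
      (Ideal.mul_mem_left _ _ e2)) (Ideal.mul_mem_left _ _ e3)
  have hI1 := intCast_not_mem_sq hp hpB3 hP hpP _ hy1 hy1'
  have hI2 := intCast_not_mem_sq hq hqB3 hQ hqQ _ hy2 hy2'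
  have hI1' := (intCast_mem_iff hp hP hpP _).2 hy1
  have hI2' := (intCast_mem_iff hq hQ hqQ _).2 hy2
  have hc1 := cong_mem (P ^ 2) y (y₁ : 𝓞 F) 12 hyP
  have hc2 := cong_mem (Q ^ 2) y (y₂ : 𝓞 F) 1740 hyQ
  rw [← hd] at hc1
  rw [← hd'] at hc2
  push_cast at hI1 hI2 hI1' hI2'
  have hdP : d ∈ P := by
    have := P.add_mem (Ideal.pow_le_self (two_ne_zero) hc1) hI1'
    rwa [sub_add_cancel] at this
  have hdP2 : d ∉ P ^ 2 := by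
    intro h
    apply hI1
    have := Ideal.sub_mem _ h hc1
    rwa [sub_sub_cancel] at this
  have hdQ : d + 1728 ∈ Q := by
    have := Q.add_mem (Ideal.pow_le_self (two_ne_zero) hc2) hI2'
    rwa [sub_add_cancel] at this
  have hdQ2 : d + 1728 ∉ Q ^ 2 := by
    intro h
    apply hI2
    have := Ideal.sub_mem _ h hc2
    rwa [sub_sub_cancel] at this
  have hd0 : d ≠ 0 := by
    intro h
    apply hdP2
    rw [h]
    exact Ideal.zero_mem _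
  have hl0 : d + 1728 ≠ 0 := by
    intro h
    apply hdQ2
    rw [h]
    exact Ideal.zero_mem _
  obtain ⟨W, hW1, hW2⟩ := exists_curve (5223 * y) d hd
  refine ⟨W, d, hW1, hW2, ?_, fun P h1 h2 => (primes_d y d hd hd0 P h1 h2).2,
    fun P h1 h2 => (primes_l y d hd hl0 P h1 h2).2, p, q, P, Q, hp, hq, hpB3, hP, hQ,
    hPn, hQn, hdP, hdP2, hdQ, hdQ2, ?_⟩
  · -- small primes
    intro R hR hΔ l hl0' hlB hlR
    have hMR : ((M : ℤ) : 𝓞 F) ∈ R := by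
      obtain ⟨k, hk⟩ : l ∣ M := by rw [hM]; exact Nat.dvd_factorial hl0' hlB
      have : ((M : ℤ) : 𝓞 F) = (k : 𝓞 F) * (l : 𝓞 F) := by rw [hk]; push_cast; ring
      rw [this]
      exact R.mul_mem_left _ hlR
    have hdv : ∀ m : ℤ, (M : ℤ) ∣ m → (m : 𝓞 F) ∈ R := by
      rintro m ⟨k, hk⟩
      have : (m : 𝓞 F) = (k : 𝓞 F) * ((M : ℤ) : 𝓞 F) := by rw [hk]; push_cast; ring
      rw [this]
      exact R.mul_mem_left _ hMR
    have hyR : y - (t : 𝓞 F) ∈ R := by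
      have e : y - (t : 𝓞 F) = (y₁ : 𝓞 F) * b * ((c₁ : ℤ) : 𝓞 F)
          + (y₂ : 𝓞 F) * ((c₂ : ℤ) : 𝓞 F) + (t : 𝓞 F) * ((c₃ - 1 : ℤ) : 𝓞 F) := by
        rw [hy]; push_cast; ring
      rw [e]
      exact R.add_mem (R.add_mem (R.mul_mem_left _ (hdv _ h13)) (R.mul_mem_left _ (hdv _ h23)))
        (R.mul_mem_left _ (hdv _ h33))
    rw [hW2, neg_mem_iff] at hΔ
    rcases hR.mem_or_mem hΔ with h | h
    · have h1 := hR.mem_of_pow_mem 3 h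
      have h2 := cong_mem R y (t : 𝓞 F) 1740 hyR
      rw [← hd'] at h2
      have h3 := R.sub_mem h1 h2
      rw [sub_sub_cancel] at h3
      obtain ⟨k, k', hk⟩ := ht2
      apply not_all hR _ _ h3 (k : 𝓞 F) hMR (k' : 𝓞 F)
      have := congrArg (Int.cast : ℤ → 𝓞 F) hk
      push_cast at this
      push_cast
      exact this
    · have h1 := hR.mem_of_pow_mem 2 h
      have h2 := cong_mem R y (t : 𝓞 F) 12 hyR
      rw [← hd] at h2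
      have h3 := R.sub_mem h1 h2
      rw [sub_sub_cancel] at h3
      obtain ⟨k, k', hk⟩ := ht1
      apply not_all hR _ _ h3 (k : 𝓞 F) hMR (k' : 𝓞 F)
      have := congrArg (Int.cast : ℤ → 𝓞 F) hk
      push_cast at this
      push_cast
      exact this
  intro P' hP' hpP' hne
  have hbP' := hb2 P' hP' hpP' hne
  have hyP' : y - ((0 : ℤ) : 𝓞 F) ∈ P' := by
    have e2 := Ideal.pow_le_self (two_ne_zero) (hsq p P' _ hpP' h21)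
    have e3 := Ideal.pow_le_self (two_ne_zero) (hsq p P' _ hpP' h31)
    have e : y - ((0 : ℤ) : 𝓞 F) = ((c₁ : 𝓞 F) * (y₁ : 𝓞 F)) * b
        + (y₂ : 𝓞 F) * ((c₂ : ℤ) : 𝓞 F) + (t : 𝓞 F) * ((c₃ : ℤ) : 𝓞 F) := by
      rw [hy]; push_cast; ring
    rw [e]
    exact Ideal.add_mem _ (Ideal.add_mem _ (Ideal.mul_mem_left _ _ hbP')
      (Ideal.mul_mem_left _ _ e2)) (Ideal.mul_mem_left _ _ e3)
  have hsmall : ∀ m : ℤ, 0 < m → m ≤ 3031081 → ¬ (p : ℤ) ∣ m := by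
    intro m h1 h2 h3
    have h4 := Int.le_of_dvd h1 h3
    have h5 : (3031081 : ℤ) < p := by exact_mod_cast hpB2
    omega
  constructor
  · intro h
    have h1 := cong_mem P' y ((0 : ℤ) : 𝓞 F) 12 hyP'
    rw [← hd] at h1
    have h2 := Ideal.sub_mem _ h h1
    rw [sub_sub_cancel] at h2
    have h3 : ((755173 : ℤ) : 𝓞 F) ∈ P' := by
      have : ((755173 : ℤ) : 𝓞 F) = (869 - 2 * (5223 * ((0 : ℤ) : 𝓞 F))
          - 2 * (5223 * ((0 : ℤ) : 𝓞 F)) ^ 2) ^ 2 + 12 := by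
        push_cast; ring
      rw [this]; exact h2
    exact hsmall _ (by norm_num) (by norm_num) ((intCast_mem_iff hp hP' hpP' _).1 h3)
  · intro h
    have h1 := cong_mem P' y ((0 : ℤ) : 𝓞 F) 1740 hyP'
    rw [← hd'] at h1
    have h2 := Ideal.sub_mem _ h h1
    rw [sub_sub_cancel] at h2
    have h3 : ((756901 : ℤ) : 𝓞 F) ∈ P' := by
      have : ((756901 : ℤ) : 𝓞 F) = (869 - 2 * (5223 * ((0 : ℤ) : 𝓞 F))
          - 2 * (5223 * ((0 : ℤ) : 𝓞 F)) ^ 2) ^ 2 + 1740 := by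
        push_cast; ring
      rw [this]; exact h2
    exact hsmall _ (by norm_num) (by norm_num) ((intCast_mem_iff hp hP' hpP' _).1 h3)

end H76EF
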